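import Pool.Agent.P.MP_8ecd01_al.A1.Radius

namespace Pool.Agent.Results.MP_8ecd01_al.RadiusCounter

open Pool.Agent.P.MP_8ecd01_al.A1

/-- In the real spherical building of type `A1^4` with at least four chambers in each factor
(for `L` the projective line over `k`: the building of `SL2(k)^4`) there is a closed convex set
that is not completely reducible and lies in no closed ball of radius `π / 2`; its circumradius
is larger than `π / 2`. -/
theorem result (L : Type) (e : Fin 4 ↪ L) :
    ∃ S : Set (Delta 4 L), IsClosed S ∧ IsConvex S ∧ (∃ x ∈ S, ∀ y ∈ S, ¬ Opp x y) ∧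
      ∃ r : ℝ, Real.pi / 2 < r ∧ ∀ c : Delta 4 L, ∃ y ∈ S, r ≤ dist c y :=
  radius e

end Pool.Agent.Results.MP_8ecd01_al.RadiusCounter
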