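import Pool.Agent.P.MP_8ecd01_al.R4.All

namespace Pool.Agent.Results.MP_8ecd01_al.RankFour

open Pool.Agent.P.MP_8ecd01_al.R4

/-- Tits' centre conjecture for closed convex top-dimensional subsets of spherical buildings of
rank four. -/
theorem result (R : RootSystem 4) (B : Building R) (S : Set (Delta B))
    (hc : IsClosed S) (hv : IsConvex S) (ht : TopDim S) :
    (∀ x ∈ S, ∃ y ∈ S, Opp x y) ∨
      ∃ c ∈ S, ∀ β : Equiv.Perm (Delta B), IsAut β → β '' S = S → β c = c :=
  centre R B S hc hv ht

end Pool.Agent.Results.MP_8ecd01_al.RankFour
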