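import Pool.Agent.P.MP_8ecd01_al.Main

namespace Pool.Agent.Results.MP_8ecd01_al.RationalNoCentre

open Pool.Agent.P.MP_8ecd01_al
open scoped ENNReal

/-- In the rational building of `Sp4(k)`, `k` algebraically closed of characteristic 2, there is
a closed convex subset that is not a subcomplex, is not completely reducible and has no centre. -/
theorem result (k : Type) [Field k] [IsAlgClosed k] [CharP k 2] :
    ∃ S : Set (Delta k),
      (∀ z : Delta k, (∀ ε : ℝ≥0∞, 0 < ε → ∃ x ∈ S, dist z x < ε) → z ∈ S) ∧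
      IsConvex S ∧
      (¬ ∀ x ∈ S, ∃ y : Cochar k, x ∈ simplex y ∧ simplex y ⊆ S) ∧
      (¬ ∀ x ∈ S, ∃ y ∈ S, Opp x y) ∧
      ¬ ∃ c ∈ S, ∀ β : Equiv.Perm (Delta k), IsAut β → β '' S = S → β c = c := by
  refine ⟨Sig k, sig_closed, sig_convex, sig_not_subcomplex, sig_not_cr, ?_⟩
  rintro ⟨c, hc, h⟩
  exact no_fixed c hc (h (beta k) beta_isAut beta_sig)

end Pool.Agent.Results.MP_8ecd01_al.RationalNoCentre
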