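import Pool.Agent.P.MP_8ecd01_al.A1.Transfer

namespace Pool.Agent.Results.MP_8ecd01_al.TypeA1n

open Pool.Agent.P.MP_8ecd01_al.A1

/-- Tits' centre conjecture for closed convex subsets of the real spherical building of type
`A1 × ... × A1` (for `L` the projective line over `k`: the building of `SL2(k)^n`). -/
theorem result (n : ℕ) (L : Type) (S : Set (Delta n L)) (hc : IsClosed S) (hv : IsConvex S) :
    (∀ x ∈ S, ∃ y ∈ S, Opp x y) ∨
      ∃ c ∈ S, ∀ β : Equiv.Perm (Delta n L), IsAut β → β '' S = S → β c = c :=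
  centre S hc hv

end Pool.Agent.Results.MP_8ecd01_al.TypeA1n
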